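import Pool.Agent.W761.CB.Stms
import Pool.Agent.W975.CB.Ms
import Pool.Agent.W366.CB.Lam
import Pool.Agent.W337.CB.Mecke
import Pool.Agent.W417.CB.Ebc

/-!
# Project CB: the last scale
-/

set_option autoImplicit false

open MeasureTheory
open scoped ENNReal

namespace Pool.Agent.W762.CB

open Pool.Agent.W761.CB

variable {X : Type} [MeasurableSpace X]

theorem sum_ofReal {X : Type} (u : X → ℝ) (hu : ∀ x, 0 ≤ u x) (S : Multiset X) :
    (S.map fun x => ENNReal.ofReal (u x)).sum = ENNReal.ofReal (S.map u).sum ∧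
      0 ≤ (S.map u).sum := by
  induction S using Multiset.induction_on with
  | empty => simp
  | cons x S ih =>
    simp only [Multiset.map_cons, Multiset.sum_cons]
    rw [ih.1, ENNReal.ofReal_add (hu x) ih.2]
    exact ⟨rfl, add_nonneg (hu x) ih.2⟩

theorem cauchy (ν : Measure X) [IsFiniteMeasure ν] (u : X → ℝ) (hm : Measurable u)
    (hu : ∀ x, 0 ≤ u x) (hu1 : ∀ x, u x ≤ 1) (M : ℝ) (hM : ∫ x, u x ∂ν = M)
    (f : X → ℂ) (hf : Measurable f) :
    ‖∫ x, (u x : ℂ) * f x ∂ν‖ₑ ^ 2 ≤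
      ENNReal.ofReal M * ∫⁻ x, ENNReal.ofReal (u x) * ‖f x‖ₑ ^ 2 ∂ν := by
  have h1 : ‖∫ x, (u x : ℂ) * f x ∂ν‖ₑ ≤ ∫⁻ x, ENNReal.ofReal (u x) * ‖f x‖ₑ ∂ν := by
    refine (enorm_integral_le_lintegral_enorm _).trans_eq ?_
    refine lintegral_congr fun x => ?_
    rw [enorm_mul]
    congr 1
    rw [← ofReal_norm, Complex.norm_real, Real.norm_of_nonneg (hu x)]
  have h2 : ENNReal.ofReal M = ∫⁻ x, ENNReal.ofReal (u x) ∂ν := by
    rw [← hM, ofReal_integral_eq_lintegral_ofReal]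
    · refine Integrable.mono' (integrable_const (1 : ℝ)) hm.aestronglyMeasurable ?_
      refine Filter.Eventually.of_forall fun x => ?_
      rw [Real.norm_of_nonneg (hu x)]
      exact hu1 x
    · exact Filter.Eventually.of_forall hu
  have hs : ∀ x, ENNReal.ofReal (√(u x)) * ENNReal.ofReal (√(u x)) = ENNReal.ofReal (u x) := by
    intro x
    rw [← ENNReal.ofReal_mul (Real.sqrt_nonneg _), Real.mul_self_sqrt (hu x)]
  have h3 := ENNReal.lintegral_mul_le_Lp_mul_Lq ν (p := 2) (q := 2) Real.HolderConjugate.two_two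
    (f := fun x => ENNReal.ofReal (√(u x))) (g := fun x => ENNReal.ofReal (√(u x)) * ‖f x‖ₑ)
    (by fun_prop) (by fun_prop)
  have h4 : (∫⁻ x, ENNReal.ofReal (u x) * ‖f x‖ₑ ∂ν) ^ 2 ≤
      (∫⁻ x, ENNReal.ofReal (u x) ∂ν) * ∫⁻ x, ENNReal.ofReal (u x) * ‖f x‖ₑ ^ 2 ∂ν := by
    have h5 : ∀ a : ℝ≥0∞, (a ^ (1 / 2 : ℝ)) ^ 2 = a := by
      intro a
      rw [← ENNReal.rpow_natCast, ← ENNReal.rpow_mul]
      norm_num
    have e1 : ∫⁻ x, ((fun x => ENNReal.ofReal (√(u x))) * fun x =>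
        ENNReal.ofReal (√(u x)) * ‖f x‖ₑ) x ∂ν = ∫⁻ x, ENNReal.ofReal (u x) * ‖f x‖ₑ ∂ν := by
      refine lintegral_congr fun x => ?_
      rw [Pi.mul_apply, ← mul_assoc, hs]
    have e2 : ∫⁻ x, ENNReal.ofReal (√(u x)) ^ (2 : ℝ) ∂ν = ∫⁻ x, ENNReal.ofReal (u x) ∂ν := by
      refine lintegral_congr fun x => ?_
      rw [ENNReal.rpow_two, sq, hs]
    have e3 : ∫⁻ x, (ENNReal.ofReal (√(u x)) * ‖f x‖ₑ) ^ (2 : ℝ) ∂ν =
        ∫⁻ x, ENNReal.ofReal (u x) * ‖f x‖ₑ ^ 2 ∂ν := by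
      refine lintegral_congr fun x => ?_
      rw [ENNReal.rpow_two, mul_pow, sq (ENNReal.ofReal _), hs]
    rw [e1, e2, e3] at h3
    calc (∫⁻ x, ENNReal.ofReal (u x) * ‖f x‖ₑ ∂ν) ^ 2
        ≤ ((∫⁻ x, ENNReal.ofReal (u x) ∂ν) ^ (1 / 2 : ℝ) *
          (∫⁻ x, ENNReal.ofReal (u x) * ‖f x‖ₑ ^ 2 ∂ν) ^ (1 / 2 : ℝ)) ^ 2 := by
          exact pow_le_pow_left₀ (zero_le) h3 2
      _ = _ := by rw [mul_pow, h5, h5]
  rw [h2]
  exact (pow_le_pow_left₀ (zero_le) h1 2).trans h4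

/-- Mecke formula and the Cauchy-Schwarz inequality -/
theorem mecke_cs (ν : Measure X) [IsFiniteMeasure ν] (u : X → ℝ) (hm : Measurable u)
    (hu : ∀ x, 0 ≤ u x) (hu1 : ∀ x, u x ≤ 1) (M : ℝ) (hM : ∫ x, u x ∂ν = M)
    (F : Multiset X → ℂ) (hF : EB F) (ψ ψ' : ℝ → ℝ≥0∞) (hψ : Measurable ψ)
    (h : ∀ S : Multiset X, ∀ x ∈ S, ψ ((S.map u).sum - u x) ≤ ψ' (S.map u).sum) :
    ∫⁻ γ, ψ ((ms γ).map u).sum * ‖ag ν u F (ms γ)‖ₑ ^ 2 ∂(lam ν) ≤
      ENNReal.ofReal M * ∫⁻ γ, ψ' ((ms γ).map u).sum * ENNReal.ofReal ((ms γ).map u).sum *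
        ‖F (ms γ)‖ₑ ^ 2 ∂(lam ν) := by
  have hMs := Pool.Agent.W975.CB.proof_ms
  have hL := Pool.Agent.W366.CB.proof_lam hMs
  have hMe := Pool.Agent.W337.CB.proof_mecke hMs hL
  have hE := Pool.Agent.W417.CB.proof_ebc hMs hL
  obtain ⟨-, hfin, -⟩ := hL X ν
  obtain ⟨-, -, -, -, hF1, -⟩ := hE X ν F F hF hF
  obtain ⟨-, -, -, hsum, -⟩ := hMs X
  have hn : Measurable fun γ : Cf X => ((ms γ).map u).sum := by
    have h1 := hsum X (fun _ => u) (hm.comp measurable_snd)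
    have h2 := hsum Unit (fun _ => u) (hm.comp measurable_snd)
    exact h2.comp (measurable_prodMk_left (x := ()))
  have hFm : Measurable fun γ : Cf X => ‖F (ms γ)‖ₑ ^ 2 := (hF.meas.enorm).pow_const 2
  let H : X → Multiset X → ℝ≥0∞ := fun x S =>
    ENNReal.ofReal (u x) * ψ ((S.map u).sum - u x) * ‖F S‖ₑ ^ 2
  have hH : Measurable (fun p : X × Cf X => H p.1 (ms p.2)) := by
    refine Measurable.mul (Measurable.mul (hm.comp measurable_fst).ennreal_ofReal
      (hψ.comp ((hn.comp measurable_snd).sub (hm.comp measurable_fst)))) (hFm.comp measurable_snd)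
  have key := hMe X ν H hH
  calc ∫⁻ γ, ψ ((ms γ).map u).sum * ‖ag ν u F (ms γ)‖ₑ ^ 2 ∂(lam ν)
      ≤ ∫⁻ γ, ENNReal.ofReal M * ∫⁻ x, H x (x ::ₘ ms γ) ∂ν ∂(lam ν) := by
        refine lintegral_mono fun γ => ?_
        have h1 := cauchy ν u hm hu hu1 M hM (fun x => F (x ::ₘ ms γ))
          (hF1.comp (measurable_prodMk_right (y := γ)))
        calc ψ ((ms γ).map u).sum * ‖ag ν u F (ms γ)‖ₑ ^ 2
            ≤ ψ ((ms γ).map u).sum * (ENNReal.ofReal M *
              ∫⁻ x, ENNReal.ofReal (u x) * ‖F (x ::ₘ ms γ)‖ₑ ^ 2 ∂ν) := mul_le_mul_right h1 _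
          _ = ENNReal.ofReal M * (ψ ((ms γ).map u).sum *
              ∫⁻ x, ENNReal.ofReal (u x) * ‖F (x ::ₘ ms γ)‖ₑ ^ 2 ∂ν) := by ring
          _ = _ := by
            congr 1
            rw [← lintegral_const_mul]
            · refine lintegral_congr fun x => ?_
              simp only [H, Multiset.map_cons, Multiset.sum_cons, add_sub_cancel_left]
              ring
            · exact hm.ennreal_ofReal.mul
                ((hF1.comp (measurable_prodMk_right (y := γ))).enorm.pow_const 2)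
    _ = ENNReal.ofReal M * ∫⁻ γ, ∫⁻ x, H x (x ::ₘ ms γ) ∂ν ∂(lam ν) := by
        rw [lintegral_const_mul' _ _ ENNReal.ofReal_ne_top]
    _ = ENNReal.ofReal M * ∫⁻ x, ∫⁻ γ, H x (x ::ₘ ms γ) ∂(lam ν) ∂ν := by
        congr 1
        rw [lintegral_lintegral_swap]
        refine Measurable.aemeasurable ?_
        simp only [H, Multiset.map_cons, Multiset.sum_cons, add_sub_cancel_left]
        exact Measurable.mul (Measurable.mul (hm.comp measurable_snd).ennreal_ofReal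
          (hψ.comp (hn.comp measurable_fst)))
            ((hF1.comp measurable_swap).enorm.pow_const 2)
    _ = ENNReal.ofReal M * ∫⁻ γ, ((ms γ).map fun x => H x (ms γ)).sum ∂(lam ν) := by
        rw [key]
    _ ≤ _ := by
        refine mul_le_mul_right (lintegral_mono fun γ => ?_) _
        have h1 : ((ms γ).map fun x => H x (ms γ)).sum ≤
            ((ms γ).map fun x => ENNReal.ofReal (u x) * (ψ' ((ms γ).map u).sum *
              ‖F (ms γ)‖ₑ ^ 2)).sum := by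
          refine Multiset.sum_map_le_sum_map _ _ fun x hx => ?_
          simp only [H]
          rw [mul_assoc]
          exact mul_le_mul_right (mul_le_mul_left (h _ x hx) _) _
        refine h1.trans_eq ?_
        rw [Multiset.sum_map_mul_right, (sum_ofReal u hu (ms γ)).1]
        ring

/-- the estimate for one vector -/
theorem one (ν : Measure X) [IsFiniteMeasure ν] (u : X → ℝ) (hm : Measurable u)
    (hu : ∀ x, 0 ≤ u x) (hu1 : ∀ x, u x ≤ 1) (M K' : ℝ) (hM : ∫ x, u x ∂ν = M) (hM0 : 0 < M)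
    (hK : 0 < K') (hKM : 1 ≤ K' * M) (z : ℂ) (F : Multiset X → ℂ) (hF : EB F) :
    nE ν (ag ν u F) ≤ ENNReal.ofReal (7 * √K' * M) * (nE ν F * ‖z‖ₑ) +
      ENNReal.ofReal (2 * M) * tl ν u (K' * M) F + 4 * dev ν u z F := by
  have hMs := Pool.Agent.W975.CB.proof_ms
  have hL := Pool.Agent.W366.CB.proof_lam hMs
  have hE := Pool.Agent.W417.CB.proof_ebc hMs hL
  obtain ⟨-, -, -, hsum, -⟩ := hMs X
  have hn : Measurable fun γ : Cf X => ((ms γ).map u).sum := by
    have h2 := hsum Unit (fun _ => u) (hm.comp measurable_snd)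
    exact h2.comp (measurable_prodMk_left (x := ()))
  have hag : EB (ag ν u F) := (hE X ν F F hF hF).2.2.2.1 u hm ⟨1, fun x => by
    rw [abs_of_nonneg (hu x)]; exact hu1 x⟩
  have hres : EB (fun S => ag ν u F S - z * F S) := by
    have h1 := (hE X ν (ag ν u F) F hag hF).2.2.1 1 (-z)
    have h2 : (fun S => ag ν u F S - z * F S) = fun S => 1 * ag ν u F S + -z * F S := by
      funext S
      ring
    rw [h2]
    exact h1
  let ψ₁ : ℝ → ℝ≥0∞ := Set.indicator (Set.Iic (2 * (K' * M))) 1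
  let ψ₂ : ℝ → ℝ≥0∞ := Set.indicator (Set.Ioi (2 * (K' * M))) 1
  let ψ₃ : ℝ → ℝ≥0∞ := Set.indicator (Set.Iic (3 * (K' * M))) 1
  have hψ₁ : Measurable ψ₁ := measurable_one.indicator measurableSet_Iic
  have hψ₂ : Measurable ψ₂ := measurable_one.indicator measurableSet_Ioi
  have a1 := mecke_cs ν u hm hu hu1 M hM F hF ψ₁ ψ₃ hψ₁ (by
    intro S x hx
    simp only [ψ₁, ψ₃, Set.indicator_apply, Set.mem_Iic, Pi.one_apply]
    split_ifs with h1 h2
    · exact le_refl _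
    · exfalso
      have := hu1 x
      exact h2 (by linarith)
    · exact zero_le
    · exact le_refl _)
  have a2 := mecke_cs ν u hm hu hu1 M hM F hF ψ₂ ψ₂ hψ₂ (by
    intro S x hx
    simp only [ψ₂, Set.indicator_apply, Set.mem_Ioi, Pi.one_apply]
    split_ifs with h1 h2
    · exact le_refl _
    · exfalso
      have := hu x
      exact h2 (by linarith)
    · exact zero_le
    · exact le_refl _)
  have b1 : ∫⁻ γ, ψ₁ ((ms γ).map u).sum * ‖ag ν u F (ms γ)‖ₑ ^ 2 ∂(lam ν) ≤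
      ENNReal.ofReal (3 * K' * M ^ 2) * nE ν F := by
    refine a1.trans ?_
    have h1 : ∫⁻ γ, ψ₃ ((ms γ).map u).sum * ENNReal.ofReal ((ms γ).map u).sum *
        ‖F (ms γ)‖ₑ ^ 2 ∂(lam ν) ≤ ENNReal.ofReal (3 * (K' * M)) * nE ν F := by
      unfold nE
      rw [← lintegral_const_mul' _ _ ENNReal.ofReal_ne_top]
      refine lintegral_mono fun γ => ?_
      refine mul_le_mul_left ?_ _
      simp only [ψ₃, Set.indicator_apply, Set.mem_Iic, Pi.one_apply]
      split_ifs with h1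
      · rw [one_mul]
        exact ENNReal.ofReal_le_ofReal h1
      · rw [zero_mul]
        exact zero_le
    refine (mul_le_mul_right h1 _).trans_eq ?_
    rw [← mul_assoc, ← ENNReal.ofReal_mul hM0.le]
    congr 2
    ring
  have b2 : ∫⁻ γ, ψ₂ ((ms γ).map u).sum * ‖ag ν u F (ms γ)‖ₑ ^ 2 ∂(lam ν) ≤
      ENNReal.ofReal (2 * M) * tl ν u (K' * M) F := by
    refine a2.trans ?_
    have h1 : ∫⁻ γ, ψ₂ ((ms γ).map u).sum * ENNReal.ofReal ((ms γ).map u).sum *
        ‖F (ms γ)‖ₑ ^ 2 ∂(lam ν) ≤ 2 * tl ν u (K' * M) F := by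
      unfold tl
      rw [← lintegral_const_mul' _ _ (by norm_num)]
      refine lintegral_mono fun γ => ?_
      rw [← mul_assoc]
      refine mul_le_mul_left ?_ _
      simp only [ψ₂, Set.indicator_apply, Set.mem_Ioi, Pi.one_apply]
      split_ifs with h1
      · rw [one_mul]
        have h2 : (2 : ℝ≥0∞) = ENNReal.ofReal 2 := by norm_num
        rw [h2, ← ENNReal.ofReal_mul (by norm_num)]
        exact ENNReal.ofReal_le_ofReal (by linarith)
      · rw [zero_mul]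
        exact zero_le
    refine (mul_le_mul_right h1 _).trans_eq ?_
    rw [← mul_assoc]
    congr 1
    rw [mul_comm, ENNReal.ofReal_mul (by norm_num)]
    norm_num
  -- the pointwise bound
  set k : ℝ := √3 * √K' * M with hk
  have hk0 : 0 < k := by positivity
  have hk2 : k ^ 2 = 3 * K' * M ^ 2 := by
    rw [hk, mul_pow, mul_pow, Real.sq_sqrt (by norm_num), Real.sq_sqrt hK.le]
  set c : ℝ := ‖z‖ with hc
  have hc0 : 0 ≤ c := norm_nonneg z
  have pt : ∀ γ : Cf X, ‖ag ν u F (ms γ)‖ₑ ^ 2 ≤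
      ENNReal.ofReal (2 * c * k) * ‖F (ms γ)‖ₑ ^ 2 +
        ENNReal.ofReal (2 * c / k) * (ψ₁ ((ms γ).map u).sum * ‖ag ν u F (ms γ)‖ₑ ^ 2) +
        4 * ‖ag ν u F (ms γ) - z * F (ms γ)‖ₑ ^ 2 +
        ψ₂ ((ms γ).map u).sum * ‖ag ν u F (ms γ)‖ₑ ^ 2 := by
    intro γ
    set A := ag ν u F (ms γ)
    set f := F (ms γ)
    by_cases h1 : ((ms γ).map u).sum ≤ 2 * (K' * M)
    · have h2 : ψ₁ ((ms γ).map u).sum = 1 := by
        simp only [ψ₁, Set.indicator_apply, Set.mem_Iic, Pi.one_apply]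
        rw [if_pos h1]
      rw [h2, one_mul]
      refine le_trans ?_ le_self_add
      have e : ∀ w : ℂ, ‖w‖ₑ ^ 2 = ENNReal.ofReal (‖w‖ ^ 2) := by
        intro w
        rw [ENNReal.ofReal_pow (norm_nonneg w), ofReal_norm]
      have e4 : (4 : ℝ≥0∞) = ENNReal.ofReal 4 := by norm_num
      rw [e, e, e, e4, ← ENNReal.ofReal_mul (by positivity), ← ENNReal.ofReal_mul (by positivity),
        ← ENNReal.ofReal_mul (by norm_num), ← ENNReal.ofReal_add (by positivity) (by positivity),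
        ← ENNReal.ofReal_add (by positivity) (by positivity)]
      refine ENNReal.ofReal_le_ofReal ?_
      have t1 : ‖A‖ ≤ c * ‖f‖ + ‖A - z * f‖ := by
        calc ‖A‖ = ‖z * f + (A - z * f)‖ := by ring_nf
          _ ≤ ‖z * f‖ + ‖A - z * f‖ := norm_add_le _ _
          _ = _ := by rw [norm_mul]
      have t2 : c * ‖f‖ ≤ ‖A‖ + ‖A - z * f‖ := by
        calc c * ‖f‖ = ‖z * f‖ := (norm_mul _ _).symm
          _ = ‖A - (A - z * f)‖ := by ring_nf
          _ ≤ ‖A‖ + ‖A - z * f‖ := norm_sub_le _ _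
      have t3 : ‖A‖ ^ 2 ≤ 2 * (c * ‖f‖) ^ 2 + 2 * ‖A - z * f‖ ^ 2 := by
        have := norm_nonneg A
        nlinarith [sq_nonneg (c * ‖f‖ - ‖A - z * f‖)]
      have t4 : (c * ‖f‖) ^ 2 ≤ 2 * (c * ‖f‖) * ‖A‖ + ‖A - z * f‖ ^ 2 := by
        rcases le_total (c * ‖f‖) ‖A‖ with h | h
        · have h5 : 0 ≤ c * ‖f‖ := by positivity
          nlinarith [norm_nonneg A, sq_nonneg (‖A - z * f‖)]
        · have h5 : (c * ‖f‖ - ‖A‖) ^ 2 ≤ ‖A - z * f‖ ^ 2 :=
            pow_le_pow_left₀ (by linarith) (by linarith) 2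
          nlinarith [sq_nonneg ‖A‖]
      have t5 : 2 * ‖f‖ * ‖A‖ ≤ k * ‖f‖ ^ 2 + ‖A‖ ^ 2 / k := by
        have h6 : k * ‖f‖ ^ 2 + ‖A‖ ^ 2 / k - 2 * ‖f‖ * ‖A‖ = (k * ‖f‖ - ‖A‖) ^ 2 / k := by
          field_simp
          ring
        have h7 : 0 ≤ (k * ‖f‖ - ‖A‖) ^ 2 / k := by positivity
        linarith
      have t6 := mul_le_mul_of_nonneg_left t5 hc0
      have t7 : 2 * c * k * ‖f‖ ^ 2 + 2 * c / k * ‖A‖ ^ 2 =
          2 * (c * (k * ‖f‖ ^ 2 + ‖A‖ ^ 2 / k)) := by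
        field_simp
      rw [t7]
      nlinarith
    · have h2 : ψ₂ ((ms γ).map u).sum = 1 := by
        simp only [ψ₂, Set.indicator_apply, Set.mem_Ioi, Pi.one_apply]
        rw [if_pos (not_le.1 h1)]
      rw [h2, one_mul]
      exact le_add_self
  have mA : Measurable fun γ : Cf X => ‖ag ν u F (ms γ)‖ₑ ^ 2 := hag.meas.enorm.pow_const 2
  have mF : Measurable fun γ : Cf X => ‖F (ms γ)‖ₑ ^ 2 := hF.meas.enorm.pow_const 2
  have mR : Measurable fun γ : Cf X => ‖ag ν u F (ms γ) - z * F (ms γ)‖ₑ ^ 2 :=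
    hres.meas.enorm.pow_const 2
  have m1 : Measurable fun γ : Cf X => ψ₁ ((ms γ).map u).sum * ‖ag ν u F (ms γ)‖ₑ ^ 2 :=
    (hψ₁.comp hn).mul mA
  have m2 : Measurable fun γ : Cf X => ψ₂ ((ms γ).map u).sum * ‖ag ν u F (ms γ)‖ₑ ^ 2 :=
    (hψ₂.comp hn).mul mA
  have fin1 : nE ν (ag ν u F) ≤ ENNReal.ofReal (2 * c * k) * nE ν F +
      ENNReal.ofReal (2 * c / k) * (∫⁻ γ, ψ₁ ((ms γ).map u).sum *
        ‖ag ν u F (ms γ)‖ₑ ^ 2 ∂(lam ν)) + 4 * dev ν u z F +
      ∫⁻ γ, ψ₂ ((ms γ).map u).sum * ‖ag ν u F (ms γ)‖ₑ ^ 2 ∂(lam ν) := by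
    calc nE ν (ag ν u F) ≤ ∫⁻ γ, (ENNReal.ofReal (2 * c * k) * ‖F (ms γ)‖ₑ ^ 2 +
        ENNReal.ofReal (2 * c / k) * (ψ₁ ((ms γ).map u).sum * ‖ag ν u F (ms γ)‖ₑ ^ 2) +
        4 * ‖ag ν u F (ms γ) - z * F (ms γ)‖ₑ ^ 2 +
        ψ₂ ((ms γ).map u).sum * ‖ag ν u F (ms γ)‖ₑ ^ 2) ∂(lam ν) := lintegral_mono pt
      _ = _ := by
        rw [lintegral_add_right _ m2, lintegral_add_right _ (mR.const_mul 4),
          lintegral_add_right _ (m1.const_mul _), lintegral_const_mul _ mF,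
          lintegral_const_mul _ m1, lintegral_const_mul _ mR]
        rfl
  refine fin1.trans ?_
  have f1 : ENNReal.ofReal (2 * c / k) * (∫⁻ γ, ψ₁ ((ms γ).map u).sum *
        ‖ag ν u F (ms γ)‖ₑ ^ 2 ∂(lam ν)) ≤ ENNReal.ofReal (2 * c * k) * nE ν F := by
    refine (mul_le_mul_right b1 _).trans_eq ?_
    rw [← mul_assoc, ← ENNReal.ofReal_mul (by positivity), ← hk2]
    congr 2
    field_simp
  have f2 : ENNReal.ofReal (2 * c * k) * nE ν F + ENNReal.ofReal (2 * c * k) * nE ν F ≤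
      ENNReal.ofReal (7 * √K' * M) * (nE ν F * ‖z‖ₑ) := by
    have h0 : ENNReal.ofReal (7 * √K' * M) * (nE ν F * ‖z‖ₑ) =
        ENNReal.ofReal (7 * √K' * M * c) * nE ν F := by
      rw [ENNReal.ofReal_mul (p := 7 * √K' * M) (by positivity), hc, ofReal_norm]
      ring
    rw [h0, ← add_mul, ← ENNReal.ofReal_add (by positivity) (by positivity)]
    refine mul_le_mul_left (ENNReal.ofReal_le_ofReal ?_) _
    rw [hk]
    have h3 : √3 ≤ 7 / 4 := by
      rw [Real.sqrt_le_left (by norm_num)]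
      norm_num
    have h4 : 0 ≤ √K' * M * c := by positivity
    nlinarith
  calc _ ≤ ENNReal.ofReal (2 * c * k) * nE ν F + ENNReal.ofReal (2 * c * k) * nE ν F +
        4 * dev ν u z F + ENNReal.ofReal (2 * M) * tl ν u (K' * M) F := by
        gcongr
    _ ≤ ENNReal.ofReal (7 * √K' * M) * (nE ν F * ‖z‖ₑ) + 4 * dev ν u z F +
        ENNReal.ofReal (2 * M) * tl ν u (K' * M) F := by gcongr
    _ = _ := by ring

theorem bot : S_BOT := by
  intro X _ ν _ I _ en u M K' P Tl N Nhi E R B hm hu hu1 hM hM0 hK hKM hP hTl hN hE hR hB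
    hcoh htl hens
  obtain ⟨A, _, Φ, c, he⟩ := hens
  have hs : ∀ i, ∑' α, nE ν (ag ν (u i) (Φ α)) ≤ ENNReal.ofReal (7 * √K' * M) *
      (∑' α, nE ν (Φ α) * ‖c α i‖ₑ) + ENNReal.ofReal (2 * M) *
        (∑' α, tl ν (u i) (K' * M) (Φ α)) + 4 * ENNReal.ofReal R := by
    intro i
    calc ∑' α, nE ν (ag ν (u i) (Φ α)) ≤ ∑' α, (ENNReal.ofReal (7 * √K' * M) *
          (nE ν (Φ α) * ‖c α i‖ₑ) + ENNReal.ofReal (2 * M) * tl ν (u i) (K' * M) (Φ α) +
            4 * dev ν (u i) (c α i) (Φ α)) :=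
          ENNReal.tsum_le_tsum fun α => one ν (u i) (hm i) (hu i) (hu1 i) M K' (hM i) hM0 hK hKM
            (c α i) (Φ α) (he.eb α)
      _ = ENNReal.ofReal (7 * √K' * M) * (∑' α, nE ν (Φ α) * ‖c α i‖ₑ) +
          ENNReal.ofReal (2 * M) * (∑' α, tl ν (u i) (K' * M) (Φ α)) +
          4 * ∑' α, dev ν (u i) (c α i) (Φ α) := by
          rw [ENNReal.tsum_add, ENNReal.tsum_add, ENNReal.tsum_mul_left, ENNReal.tsum_mul_left,
            ENNReal.tsum_mul_left]
      _ ≤ _ := by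
          have := he.amp i
          gcongr
  have hsum : ∑ i, ∑' α, nE ν (ag ν (u i) (Φ α)) ≤ ENNReal.ofReal (7 * √K' * M) *
      ENNReal.ofReal B + ENNReal.ofReal (2 * M) * (ENNReal.ofReal Tl * ENNReal.ofReal E) +
        Fintype.card I * (4 * ENNReal.ofReal R) := by
    calc ∑ i, ∑' α, nE ν (ag ν (u i) (Φ α)) ≤ ∑ i, (ENNReal.ofReal (7 * √K' * M) *
      (∑' α, nE ν (Φ α) * ‖c α i‖ₑ) + ENNReal.ofReal (2 * M) *
        (∑' α, tl ν (u i) (K' * M) (Φ α)) + 4 * ENNReal.ofReal R) :=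
          Finset.sum_le_sum fun i _ => hs i
      _ = ENNReal.ofReal (7 * √K' * M) * (∑' α, nE ν (Φ α) * ∑ i, ‖c α i‖ₑ) +
          ENNReal.ofReal (2 * M) * (∑' α, ∑ i, tl ν (u i) (K' * M) (Φ α)) +
          Fintype.card I * (4 * ENNReal.ofReal R) := by
          rw [Finset.sum_add_distrib, Finset.sum_add_distrib, ← Finset.mul_sum, ← Finset.mul_sum]
          congr 1
          · congr 1
            · congr 1
              simp only [Finset.mul_sum]
              exact (Summable.tsum_finsetSum fun i _ => ENNReal.summable).symm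
            · congr 1
              exact (Summable.tsum_finsetSum fun i _ => ENNReal.summable).symm
          · rw [Finset.sum_const, Finset.card_univ, nsmul_eq_mul]
      _ ≤ _ := by
          have h1 := he.coh
          have h2 : ∑' α, ∑ i, tl ν (u i) (K' * M) (Φ α) ≤
              ENNReal.ofReal Tl * ENNReal.ofReal E := by
            calc ∑' α, ∑ i, tl ν (u i) (K' * M) (Φ α) ≤ ∑' α, ENNReal.ofReal Tl * en (Φ α) :=
                  ENNReal.tsum_le_tsum fun α => htl _ (he.eb α)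
              _ = ENNReal.ofReal Tl * ∑' α, en (Φ α) := ENNReal.tsum_mul_left
              _ ≤ _ := by
                have := he.energy
                gcongr
          gcongr
  have hmain : ENNReal.ofReal M * ENNReal.ofReal N ≤ ENNReal.ofReal (7 * √K' * M) *
      ENNReal.ofReal B + ENNReal.ofReal (2 * M) * (ENNReal.ofReal Tl * ENNReal.ofReal E) +
        Fintype.card I * (4 * ENNReal.ofReal R) + ENNReal.ofReal (M * P) * ENNReal.ofReal E := by
    calc ENNReal.ofReal M * ENNReal.ofReal N ≤ ENNReal.ofReal M * ∑' α, nuE ν (Φ α) := by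
          have := he.nlo
          gcongr
      _ = ∑' α, ENNReal.ofReal M * nuE ν (Φ α) := ENNReal.tsum_mul_left.symm
      _ ≤ ∑' α, (∑ i, nE ν (ag ν (u i) (Φ α)) + ENNReal.ofReal (M * P) * en (Φ α)) :=
          ENNReal.tsum_le_tsum fun α => hcoh _ (he.eb α)
      _ = ∑ i, ∑' α, nE ν (ag ν (u i) (Φ α)) + ENNReal.ofReal (M * P) * ∑' α, en (Φ α) := by
          rw [ENNReal.tsum_add, ENNReal.tsum_mul_left]
          congr 1
          exact Summable.tsum_finsetSum fun i _ => ENNReal.summable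
      _ ≤ _ := by
          have := he.energy
          gcongr
  have hreal : M * N ≤ 7 * √K' * M * B + 2 * M * (Tl * E) + Fintype.card I * (4 * R) +
      M * P * E := by
    have e1 : ENNReal.ofReal (M * N) ≤ ENNReal.ofReal (7 * √K' * M * B + 2 * M * (Tl * E) +
        Fintype.card I * (4 * R) + M * P * E) := by
      have e4 : (4 : ℝ≥0∞) = ENNReal.ofReal 4 := by norm_num
      rw [ENNReal.ofReal_add (by positivity) (by positivity),
        ENNReal.ofReal_add (by positivity) (by positivity),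
        ENNReal.ofReal_add (by positivity) (by positivity),
        ENNReal.ofReal_mul hM0.le, ENNReal.ofReal_mul (p := 7 * √K' * M) (by positivity),
        ENNReal.ofReal_mul (p := 2 * M) (by positivity), ENNReal.ofReal_mul hTl,
        ENNReal.ofReal_mul (p := (Fintype.card I : ℝ)) (by positivity),
        ENNReal.ofReal_mul (p := (4 : ℝ)) (by norm_num),
        ENNReal.ofReal_mul (p := M * P) (by positivity), ENNReal.ofReal_natCast, ← e4]
      exact hmain
    exact (ENNReal.ofReal_le_ofReal_iff (by positivity)).1 e1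
  have h1 : N ≤ 7 * √K' * B + 2 * (Tl * E) + 4 * Fintype.card I * R / M + P * E := by
    have h2 : 7 * √K' * B + 2 * (Tl * E) + 4 * Fintype.card I * R / M + P * E =
        (7 * √K' * M * B + 2 * M * (Tl * E) + Fintype.card I * (4 * R) + M * P * E) / M := by
      field_simp
    rw [h2, le_div_iff₀ hM0]
    linarith
  refine h1.trans ?_
  have h3 : 4 * Fintype.card I * R / M ≤ 12 * Fintype.card I * R / M := by
    gcongr
    norm_num
  have h4 : 0 ≤ Tl * E := by positivity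
  nlinarith

end Pool.Agent.W762.CB
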